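import Pool.Agent.Helper6.CXF.UU4

/-!
FARL, row UU: soundness of the test `uu` (two runs of two from `L`, orientation `-`, loops).
-/

set_option autoImplicit false
set_option exponentiation.threshold 4000
noncomputable section
namespace Pool.Agent.Helper94.CXF.SD
namespace UUX

open Pool.Agent.Helper86.CX renaming Hm → Hm, ev → hev
open Pool.Agent.Helper94.CXF (M9)
open Pool.Agent.Helper94.CXF
open Complex ComplexConjugate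

section
variable {x0 : ℝ} {x : ℕ} {k0 k1 : KN.Nd} {u0 u1 u : ℂ} {s : ℝ}
  {KA KB HA HB : Hm ℕ} {KAz KBz HAz HBz : Hm ℤ} {T0 T1 : M9 ℝ} {N0 N1 : M9 ℕ} {Z0 Z1 : M9 ℤ}

/-- the row value with the integer matrices -/
def VRz (KAz KBz HBz : Hm ℤ) (Z0 Z1 : M9 ℤ) (s : ℝ) (u : ℂ) (y : Fin 3 → ℂ) : ℝ :=
  VR s u y (pz Z0) (QZ KAz Z0 Z1) (QZ KBz Z0 Z1) (fun y => (QZ KAz Z1 Z1 y).re)
    (fun y => (QZ KBz Z1 Z1 y).re) (fun y => (QZ KBz Z0 Z0 y).re) (hev (rH HBz))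
def VBz (KAz KBz HAz HBz : Hm ℤ) (Z0 Z1 : M9 ℤ) (s : ℝ) (u : ℂ) (y : Fin 3 → ℂ) : ℝ :=
  VB s u y (pz Z0) (QZ KAz Z0 Z1) (QZ KBz Z0 Z1) (fun y => (QZ KAz Z1 Z1 y).re)
    (fun y => (QZ KBz Z1 Z1 y).re) (fun y => (QZ KAz Z0 Z0 y).re)
    (fun y => (QZ KBz Z0 Z0 y).re) (hev (rH HAz)) (hev (rH HBz))
/-- the same with the true matrices -/
def VRt (KAz KBz HBz : Hm ℤ) (T0 T1 : M9 ℝ) (s : ℝ) (u : ℂ) (y : Fin 3 → ℂ) : ℝ :=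
  VR s u y (pt T0) (QT KAz T0 T1) (QT KBz T0 T1) (fun y => (QT KAz T1 T1 y).re)
    (fun y => (QT KBz T1 T1 y).re) (fun y => (QT KBz T0 T0 y).re) (hev (rH HBz))
def VBt (KAz KBz HAz HBz : Hm ℤ) (T0 T1 : M9 ℝ) (s : ℝ) (u : ℂ) (y : Fin 3 → ℂ) : ℝ :=
  VB s u y (pt T0) (QT KAz T0 T1) (QT KBz T0 T1) (fun y => (QT KAz T1 T1 y).re)
    (fun y => (QT KBz T1 T1 y).re) (fun y => (QT KAz T0 T0 y).re)
    (fun y => (QT KBz T0 T0 y).re) (hev (rH HAz)) (hev (rH HBz))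

theorem bd_rw4 {X J : M9 ℤ} {n : ℕ} (h : 4 * (GR.sqM (GR.rwM X) + GR.sqM (GR.rwM J)) ≤ (n : ℤ) * n)
    (y : Fin 3 → ℂ) :
    2 * ‖sq2 (rM X) (rM J) y y - sq2 (rM X) (rM J) (bkv y) (bkv y)‖ ≤ n * nr y := by
  have := sq2_bd4 h y
  rw [mp_rwM, mp_rwM, sq2_rw] at this
  exact this

theorem bd_rw {X J : M9 ℤ} {n : ℕ} (h : GR.sqM (GR.rwM X) + GR.sqM (GR.rwM J) ≤ (n : ℤ) * n)
    (y : Fin 3 → ℂ) :
    ‖sq2 (rM X) (rM J) y y - sq2 (rM X) (rM J) (bkv y) (bkv y)‖ ≤ n * nr y := by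
  have := sq2_bd h y
  rw [mp_rwM, mp_rwM, sq2_rw] at this
  exact this

theorem bd_bk4 {X J : M9 ℤ} {n : ℕ} (h : 4 * (GR.sqM (GR.bkM X) + GR.sqM (GR.bkM J)) ≤ (n : ℤ) * n)
    (y : Fin 3 → ℂ) : 2 * ‖sq2 (rM X) (rM J) (bkv y) (bkv y)‖ ≤ n * nr (bkv y) := by
  have := sq2_bd4 h (bkv y)
  rw [mp_bkM, mp_bkM, sq2_bk2] at this
  exact this

theorem bd_bk {X J : M9 ℤ} {n : ℕ} (h : GR.sqM (GR.bkM X) + GR.sqM (GR.bkM J) ≤ (n : ℤ) * n)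
    (y : Fin 3 → ℂ) : ‖sq2 (rM X) (rM J) (bkv y) (bkv y)‖ ≤ n * nr (bkv y) := by
  have := sq2_bd h (bkv y)
  rw [mp_bkM, mp_bkM, sq2_bk2] at this
  exact this

theorem Vn_zero (k : KN.Nd) : Vn k 0 0 0 0 0 0 0 = 0 := by
  simp [Vn]

/-- ONE CHORD, integer matrices -/
theorem c8_int (hKA : RH KA KAz) (hKB : RH KB KBz) (hHA : RH HA HAz) (hHB : RH HB HBz)
    (D : UD KAz KBz HAz HBz T0 T1 N0 N1 Z0 Z1) (hx : |x0| ≤ (x : ℝ) / 2 ^ 16) (hx2 : x ≤ 2 ^ 17)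
    {t : KN.LU} (tnu : t.nu ≤ 2 ^ 145) (tne : t.ne ≤ 2 ^ 145) (tm : t.m ≤ 2 ^ 145)
    (tbe : t.be ≤ 2 ^ 145) (tbg : t.bg ≤ 2 ^ 145) (tb0 : t.b0 ≤ 2 ^ 145) (tb1 : t.b1 ≤ 2 ^ 145)
    (q1 : KN.nqR (KN.qr KA N0 N1) (KN.qi KA N0 N1) t.nu = true)
    (q2 : KN.nqR (KN.qr KB N0 N1) (KN.qi KB N0 N1) t.ne = true)
    (q3 : KN.npR (KN.qr KB N1 N1) (KN.qi KB N1 N1) t.m = true)
    (q4 : KN.nqB (KN.qr KA N0 N1) (KN.qi KA N0 N1) t.be = true)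
    (q5 : KN.nqB (KN.qr KB N0 N1) (KN.qi KB N0 N1) t.bg = true)
    (q6 : KN.npB (KN.qr KA N1 N1) (KN.qi KA N1 N1) t.b0 = true)
    (q7 : KN.npB (KN.qr KB N1 N1) (KN.qi KB N1 N1) t.b1 = true)
    (h0 : NdR x0 k0 u0) (h1 : NdR x0 k1 u1) {l : ℕ}
    (hc : KN.c8 x t
      (KN.adH (KN.hm (KN.qr KA N0 N0) (KN.qi KA N0 N0)) (KN.smH (KN.ng (Nat.mul N0.a N0.a)) HA))
      (KN.adH (KN.hm (KN.qr KB N0 N0) (KN.qi KB N0 N0)) (KN.smH (KN.ng (Nat.mul N0.a N0.a)) HB))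
      (KN.cA (KN.qr KA N0 N1) (KN.qi KA N0 N1)) (KN.cB (KN.qr KA N0 N1) (KN.qi KA N0 N1))
      (KN.cA (KN.qr KB N0 N1) (KN.qi KB N0 N1)) (KN.cB (KN.qr KB N0 N1) (KN.qi KB N0 N1))
      (KN.hm (KN.qr KA N1 N1) (KN.qi KA N1 N1)) (KN.hm (KN.qr KB N1 N1) (KN.qi KB N1 N1))
      k0 k1 l = true)
    (hu : Cv x0 s u) (s0 : (k0.i : ℝ) / 2048 ≤ s) (s1 : s ≤ (k1.i : ℝ) / 2048) (y : Fin 3 → ℂ) :
    (k1.i : ℝ) * (2 ^ 98 * nr y) + 2048 * (2 ^ 98 * nr (bkv y)) ≤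
        k1.i * VRz KAz KBz HBz Z0 Z1 s u y + 2048 * VBz KAz KBz HAz HBz Z0 Z1 s u (bkv y) ∧
      2 ^ 98 * nr (bkv y) ≤ VBz KAz KBz HAz HBz Z0 Z1 s u (bkv y) := by
  unfold KN.c8 at hc
  simp only [andB_iff] at hc
  obtain ⟨hi, p0, p1⟩ := hc
  have hi : k0.i + 1 ≤ k1.i := Nat.le_of_ble_eq_true hi
  have o0 := D.o0
  have o1 := D.o1
  have bi : k1.i ≤ 256 := by
    have := h1.cv.s1
    have : (k1.i : ℝ) ≤ 256 := by linarith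
    exact_mod_cast this
  have bd : k1.i - k0.i ≤ 256 := by omega
  have Fle := (sF_le (w := k1.i) (t := t) hx2 bd bi tnu tne tm).trans
    (show 2 ^ 213 ≤ 2 ^ 220 by norm_num)
  have Gle := (sD_le (t := t) hx2 bd tbe tbg tb0 tb1).trans (show 2 ^ 216 ≤ 2 ^ 220 by norm_num)
  have n00 := node8 hKA hKB hHA hHB D h0 bi Fle Gle p0
  have n01 := node8 hKA hKB hHA hHB D h1 bi Fle Gle p1
  -- norms
  have qA := (qr_bd D.bA o0.bd o1.bd).mono (b := 2 ^ 200) (by norm_num)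
  have jA := (qi_bd D.bA o0.bd o1.bd).mono (b := 2 ^ 200) (by norm_num)
  have qB := (qr_bd D.bB o0.bd o1.bd).mono (b := 2 ^ 200) (by norm_num)
  have jB := (qi_bd D.bB o0.bd o1.bd).mono (b := 2 ^ 200) (by norm_num)
  have qA11 := (qr_bd D.bA o1.bd o1.bd).mono (b := 2 ^ 200) (by norm_num)
  have jA11 := (qi_bd D.bA o1.bd o1.bd).mono (b := 2 ^ 200) (by norm_num)
  have qB11 := (qr_bd D.bB o1.bd o1.bd).mono (b := 2 ^ 200) (by norm_num)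
  have jB11 := (qi_bd D.bB o1.bd o1.bd).mono (b := 2 ^ 200) (by norm_num)
  have RA := qr_rep hKA o0.rep o1.rep
  have JA := qi_rep hKA o0.rep o1.rep
  have RB := qr_rep hKB o0.rep o1.rep
  have JB := qi_rep hKB o0.rep o1.rep
  have RA1 := qr_rep hKA o1.rep o1.rep
  have JA1 := qi_rep hKA o1.rep o1.rep
  have RB1 := qr_rep hKB o1.rep o1.rep
  have JB1 := qi_rep hKB o1.rep o1.rep
  have w1 := bd_rw4 (nqR_sound RA JA qA jA q1) y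
  have w2 := bd_rw4 (nqR_sound RB JB qB jB q2) y
  have w3 := bd_rw (npR_sound RB1 JB1 qB11 jB11 q3) y
  have w4 := bd_bk4 (nqB_sound RA JA qA jA q4) y
  have w5 := bd_bk4 (nqB_sound RB JB qB jB q5) y
  have w6 := bd_bk (npB_sound RA1 JA1 qA11 jA11 q6) y
  have w7 := bd_bk (npB_sound RB1 JB1 qB11 jB11 q7) y
  rw [rM_qr, rM_qi] at w1 w2 w3 w4 w5 w6 w7
  -- the chord
  have hi' : (k0.i : ℝ) / 2048 < (k1.i : ℝ) / 2048 := by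
    have : (k0.i : ℝ) + 1 ≤ k1.i := by exact_mod_cast hi
    linarith
  obtain ⟨τ, t0, t1, hs⟩ := exists_t s0 s1 hi'
  have CR := chordV (c3 := 0) (qg := 0) (ng := 0) (m3 := 0) (m2 := t.m * nr y)
    (c1 := ((QZ KBz Z0 Z0 y).re - (QZ KBz Z0 Z0 (bkv y)).re) +
          pz Z0 * (hev (rH HBz) y - hev (rH HBz) (bkv y)))
    (cs := (QZ KAz Z1 Z1 y).re - (QZ KAz Z1 Z1 (bkv y)).re)
    (c2 := (QZ KBz Z1 Z1 y).re - (QZ KBz Z1 Z1 (bkv y)).re)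
    (qu := QZ KAz Z0 Z1 y - QZ KAz Z0 Z1 (bkv y)) (qe := QZ KBz Z0 Z1 y - QZ KBz Z0 Z1 (bkv y))
    h0 h1 hu hx hx2 t0 t1 hs (by omega) w1 w2 (by simp)
    (by rw [← sub_re]; exact (abs_re_le_norm _).trans w3) (by simp)
  have CB := chordV (qu := 0) (nu := 0) (m2 := t.b0 * nr (bkv y)) (m3 := t.b1 * nr (bkv y))
    (c1 := (QZ KAz Z0 Z0 (bkv y)).re + pz Z0 * hev (rH HAz) (bkv y))
    (cs := (QZ KBz Z0 Z0 (bkv y)).re + pz Z0 * hev (rH HBz) (bkv y))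
    (c2 := (QZ KAz Z1 Z1 (bkv y)).re) (c3 := (QZ KBz Z1 Z1 (bkv y)).re)
    (qe := QZ KAz Z0 Z1 (bkv y)) (qg := QZ KBz Z0 Z1 (bkv y))
    h0 h1 hu hx hx2 t0 t1 hs (by omega) (by simp) w4 w5
    ((abs_re_le_norm _).trans w6) ((abs_re_le_norm _).trans w7)
  have a0 := n00 y
  have a1 := n01 y
  have b0 := n00 (bkv y)
  have b1 := n01 (bkv y)
  simp only [bkv_bkv, sub_self, mul_zero, add_zero, Vn_zero, zero_add] at b0 b1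
  set R0 := Vn k0 (((QZ KBz Z0 Z0 y).re - (QZ KBz Z0 Z0 (bkv y)).re) +
          pz Z0 * (hev (rH HBz) y - hev (rH HBz) (bkv y)))
        ((QZ KAz Z1 Z1 y).re - (QZ KAz Z1 Z1 (bkv y)).re)
        ((QZ KBz Z1 Z1 y).re - (QZ KBz Z1 Z1 (bkv y)).re) 0
        (QZ KAz Z0 Z1 y - QZ KAz Z0 Z1 (bkv y)) (QZ KBz Z0 Z1 y - QZ KBz Z0 Z1 (bkv y)) 0
  set R1 := Vn k1 (((QZ KBz Z0 Z0 y).re - (QZ KBz Z0 Z0 (bkv y)).re) +
          pz Z0 * (hev (rH HBz) y - hev (rH HBz) (bkv y)))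
        ((QZ KAz Z1 Z1 y).re - (QZ KAz Z1 Z1 (bkv y)).re)
        ((QZ KBz Z1 Z1 y).re - (QZ KBz Z1 Z1 (bkv y)).re) 0
        (QZ KAz Z0 Z1 y - QZ KAz Z0 Z1 (bkv y)) (QZ KBz Z0 Z1 y - QZ KBz Z0 Z1 (bkv y)) 0
  set B0 := Vn k0 ((QZ KAz Z0 Z0 (bkv y)).re + pz Z0 * hev (rH HAz) (bkv y))
        ((QZ KBz Z0 Z0 (bkv y)).re + pz Z0 * hev (rH HBz) (bkv y))
        (QZ KAz Z1 Z1 (bkv y)).re (QZ KBz Z1 Z1 (bkv y)).re 0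
        (QZ KAz Z0 Z1 (bkv y)) (QZ KBz Z0 Z1 (bkv y))
  set B1 := Vn k1 ((QZ KAz Z0 Z0 (bkv y)).re + pz Z0 * hev (rH HAz) (bkv y))
        ((QZ KBz Z0 Z0 (bkv y)).re + pz Z0 * hev (rH HBz) (bkv y))
        (QZ KAz Z1 Z1 (bkv y)).re (QZ KBz Z1 Z1 (bkv y)).re 0
        (QZ KAz Z0 Z1 (bkv y)) (QZ KBz Z0 Z1 (bkv y))
  change _ ≤ 2 ^ 62 * VRz KAz KBz HBz Z0 Z1 s u y at CR
  change _ ≤ 2 ^ 62 * VBz KAz KBz HAz HBz Z0 Z1 s u (bkv y) at CB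
  generalize VRz KAz KBz HBz Z0 Z1 s u y = VR at CR ⊢
  generalize VBz KAz KBz HAz HBz Z0 Z1 s u (bkv y) = VB at CB ⊢
  have Fr : ((KN.sF x (k1.i - k0.i) k1.i t : ℕ) : ℝ) = k1.i *
      ((KN.dU x (k1.i - k0.i) : ℝ) * t.nu + (KN.dE x (k1.i - k0.i) : ℝ) * t.ne +
        ((KN.dS (k1.i - k0.i) : ℝ) * t.m + 2 ^ 160)) := by
    rw [sF_eq, slr_eq]; push_cast; ring
  have Gr : ((KN.sD x (k1.i - k0.i) t : ℕ) : ℝ) = 2048 *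
      (((KN.dE x (k1.i - k0.i) : ℝ) * t.be + (KN.dG x (k1.i - k0.i) : ℝ) * t.bg) +
        ((KN.dS (k1.i - k0.i) : ℝ) * t.b0 + (KN.dC (k1.i - k0.i) : ℝ) * t.b1 + 2 ^ 160)) := by
    rw [sD_eq]; push_cast; ring
  have F0 : (0 : ℝ) ≤ (KN.sF x (k1.i - k0.i) k1.i t : ℕ) := Nat.cast_nonneg _
  rw [Fr] at a0 a1 b0 b1 F0
  rw [Gr] at a0 a1 b0 b1
  have w0 : (0 : ℝ) ≤ k1.i := Nat.cast_nonneg _
  have ny := nr_nonneg y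
  have nb := nr_nonneg (bkv y)
  have A0 := mul_le_mul_of_nonneg_left a0 (sub_nonneg.2 t1)
  have A1 := mul_le_mul_of_nonneg_left a1 t0
  have E0 := mul_le_mul_of_nonneg_left b0 (sub_nonneg.2 t1)
  have E1 := mul_le_mul_of_nonneg_left b1 t0
  have CRw := mul_le_mul_of_nonneg_left CR w0
  have Fn := mul_nonneg F0 nb
  clear_value R0 R1 B0 B1
  generalize ((KN.dU x (k1.i - k0.i) : ℕ) : ℝ) = dU at *
  generalize ((KN.dE x (k1.i - k0.i) : ℕ) : ℝ) = dE at *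
  generalize ((KN.dG x (k1.i - k0.i) : ℕ) : ℝ) = dG at *
  generalize ((KN.dS (k1.i - k0.i) : ℕ) : ℝ) = dS at *
  generalize ((KN.dC (k1.i - k0.i) : ℕ) : ℝ) = dC at *
  constructor
  · have key : (2 : ℝ) ^ 62 * ((k1.i : ℝ) * (2 ^ 98 * nr y) + 2048 * (2 ^ 98 * nr (bkv y))) ≤
        2 ^ 62 * (k1.i * VR + 2048 * VB) := by
      linarith
    exact le_of_mul_le_mul_left key (by positivity)
  · have key : (2 : ℝ) ^ 62 * (2048 * (2 ^ 98 * nr (bkv y))) ≤ 2 ^ 62 * (2048 * VB) := by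
      linarith
    have := le_of_mul_le_mul_left key (by positivity)
    linarith

/-- ONE CHORD, true matrices -/
theorem c8_true (D : UD KAz KBz HAz HBz T0 T1 N0 N1 Z0 Z1) (hu : Cv x0 s u) {w : ℝ} (w0 : 0 ≤ w)
    {y : Fin 3 → ℂ}
    (h : w * (2 ^ 98 * nr y) + 2048 * (2 ^ 98 * nr (bkv y)) ≤
        w * VRz KAz KBz HBz Z0 Z1 s u y + 2048 * VBz KAz KBz HAz HBz Z0 Z1 s u (bkv y) ∧
      2 ^ 98 * nr (bkv y) ≤ VBz KAz KBz HAz HBz Z0 Z1 s u (bkv y)) :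
    w * (76 * 2 ^ 90 * nr y) ≤
        w * VRt KAz KBz HBz T0 T1 s u y + 2048 * VBt KAz KBz HAz HBz T0 T1 s u (bkv y) ∧
      76 * 2 ^ 90 * nr (bkv y) ≤ VBt KAz KBz HAz HBz T0 T1 s u (bkv y) := by
  obtain ⟨h1, h2⟩ := h
  have a := D.vr hu y
  have b := D.vb hu (bkv y)
  change VRz KAz KBz HBz Z0 Z1 s u y ≤ VRt KAz KBz HBz T0 T1 s u y + _ at a
  change VBz KAz KBz HAz HBz Z0 Z1 s u (bkv y) ≤ VBt KAz KBz HAz HBz T0 T1 s u (bkv y) + _ at b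
  have a' := mul_le_mul_of_nonneg_left a w0
  have nb := nr_nonneg (bkv y)
  constructor
  · linarith
  · linarith

end

end UUX
end Pool.Agent.Helper94.CXF.SD
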