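import Pool.Agent.Helper94.CXF.S8

/-!
FARL, row UU, first part: row and block parts of forms, norms, the integer form at a node.
-/

set_option autoImplicit false
set_option exponentiation.threshold 4000
noncomputable section
namespace Pool.Agent.Helper94.CXF.SD
namespace UUX

open Pool.Agent.Helper86.CX renaming Hm → Hm, ev → hev
open Pool.Agent.Helper94.CXF (M9)
open Pool.Agent.Helper94.CXF
open Complex ComplexConjugate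

/-! ### the block part of a vector -/

/-- the vector without its first coordinate -/
def bkv (x : Fin 3 → ℂ) : Fin 3 → ℂ := ![0, x 1, x 2]

theorem bkv_0 (x : Fin 3 → ℂ) : bkv x 0 = 0 := rfl
theorem bkv_1 (x : Fin 3 → ℂ) : bkv x 1 = x 1 := rfl
theorem bkv_2 (x : Fin 3 → ℂ) : bkv x 2 = x 2 := rfl

theorem nr_bkv (x : Fin 3 → ℂ) : nr (bkv x) = normSq (x 1) + normSq (x 2) := by
  rw [nr, bkv_0, bkv_1, bkv_2, map_zero, zero_add]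

theorem nr_split (x : Fin 3 → ℂ) : nr x = normSq (x 0) + nr (bkv x) := by
  rw [nr_bkv, nr]; ring

theorem nr_bkv_le (x : Fin 3 → ℂ) : nr (bkv x) ≤ nr x := by
  rw [nr_split x]
  linarith [normSq_nonneg (x 0)]

theorem hev_rw (M : Hm ℝ) (x : Fin 3 → ℂ) :
    hev (GR.rwH M) x = hev M x - hev M (bkv x) := by
  simp only [hev, GR.rwH, bkv_0, bkv_1, bkv_2]
  simp
  ring

theorem hev_bk (M : Hm ℝ) (x : Fin 3 → ℂ) : hev (GR.bkH M) x = hev M (bkv x) := by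
  simp only [hev, GR.bkH, bkv_0, bkv_1, bkv_2]
  simp

theorem sq2_rw (X J : M9 ℝ) (x : Fin 3 → ℂ) :
    sq2 (GR.rwM X) (GR.rwM J) x x = sq2 X J x x - sq2 X J (bkv x) (bkv x) := by
  simp only [sq2, GR.rwM, bkv_0, bkv_1, bkv_2]
  simp
  ring

theorem sq2_bk (X J : M9 ℝ) (x : Fin 3 → ℂ) :
    sq2 (GR.bkM X) (GR.bkM J) x x = sq2 X J (bkv x) (bkv x) := by
  simp only [sq2, GR.bkM, bkv_0, bkv_1, bkv_2]
  simp

theorem sq2_bk2 (X J : M9 ℝ) (x : Fin 3 → ℂ) :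
    sq2 (GR.bkM X) (GR.bkM J) (bkv x) (bkv x) = sq2 X J (bkv x) (bkv x) := by
  simp only [sq2, GR.bkM, bkv_0, bkv_1, bkv_2]
  simp

/-! ### norms of the parts -/

section
variable {A B : M9 ℕ} {Z W : M9 ℤ} {n : ℕ}

theorem mp_rwM (Z : M9 ℤ) : rM (GR.rwM Z) = GR.rwM (rM Z) := by
  simp [rM, GR.mpM, GR.rwM]
theorem mp_bkM (Z : M9 ℤ) : rM (GR.bkM Z) = GR.bkM (rM Z) := by
  simp [rM, GR.mpM, GR.bkM]

theorem sqRw (Z : M9 ℤ) : GR.sqM (GR.rwM Z) =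
    Z.a * Z.a + (Z.b * Z.b + (Z.c * Z.c + (Z.d * Z.d + Z.g * Z.g))) := by
  simp only [GR.sqM, GR.rwM]; ring
theorem sqBk (Z : M9 ℤ) : GR.sqM (GR.bkM Z) =
    Z.e * Z.e + (Z.f * Z.f + (Z.h * Z.h + Z.i * Z.i)) := by
  simp only [GR.sqM, GR.bkM]; ring

theorem sqRw_bd {b : ℤ} (h : BM b Z) : GR.sqM (GR.rwM Z) ≤ 5 * (b * b) := by
  rw [sqRw]
  linarith [sqz h.a, sqz h.b, sqz h.c, sqz h.d, sqz h.g]
theorem sqBk_bd {b : ℤ} (h : BM b Z) : GR.sqM (GR.bkM Z) ≤ 4 * (b * b) := by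
  rw [sqBk]
  linarith [sqz h.e, sqz h.f, sqz h.h, sqz h.i]

theorem npR_sound (r : RM A Z) (q : RM B W) (bz : BM (2 ^ 200) Z) (bw : BM (2 ^ 200) W)
    (h : KN.npR A B n = true) :
    GR.sqM (GR.rwM Z) + GR.sqM (GR.rwM W) ≤ (n : ℤ) * n := by
  refine ble_sound h ?_ (add_nonneg (sqM_nonneg _) (sqM_nonneg _)) ?_
  · rw [sqRw, sqRw]
    exact (sR_rep r).add (sR_rep q)
  · have h1 := sqRw_bd bz
    have h2 := sqRw_bd bw
    have : (5 : ℤ) * (2 ^ 200 * 2 ^ 200) + 5 * (2 ^ 200 * 2 ^ 200) < 2 ^ 1152 := by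
      decide +kernel
    linarith

theorem npB_sound (r : RM A Z) (q : RM B W) (bz : BM (2 ^ 200) Z) (bw : BM (2 ^ 200) W)
    (h : KN.npB A B n = true) :
    GR.sqM (GR.bkM Z) + GR.sqM (GR.bkM W) ≤ (n : ℤ) * n := by
  refine ble_sound h ?_ (add_nonneg (sqM_nonneg _) (sqM_nonneg _)) ?_
  · rw [sqBk, sqBk]
    exact (sB_rep r).add (sB_rep q)
  · have h1 := sqBk_bd bz
    have h2 := sqBk_bd bw
    have : (4 : ℤ) * (2 ^ 200 * 2 ^ 200) + 4 * (2 ^ 200 * 2 ^ 200) < 2 ^ 1152 := by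
      decide +kernel
    linarith

theorem nqR_sound (r : RM A Z) (q : RM B W) (bz : BM (2 ^ 200) Z) (bw : BM (2 ^ 200) W)
    (h : KN.nqR A B n = true) :
    4 * (GR.sqM (GR.rwM Z) + GR.sqM (GR.rwM W)) ≤ (n : ℤ) * n := by
  have h0 := add_nonneg (sqM_nonneg (GR.rwM Z)) (sqM_nonneg (GR.rwM W))
  refine ble_sound h ?_ (by linarith) ?_
  · rw [sqRw, sqRw]
    exact (Pool.Agent.Helper17.PAK.Rep.nat KN.MM 4).mul ((sR_rep r).add (sR_rep q))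
  · have h1 := sqRw_bd bz
    have h2 := sqRw_bd bw
    have : 4 * ((5 : ℤ) * (2 ^ 200 * 2 ^ 200) + 5 * (2 ^ 200 * 2 ^ 200)) < 2 ^ 1152 := by
      decide +kernel
    linarith

theorem nqB_sound (r : RM A Z) (q : RM B W) (bz : BM (2 ^ 200) Z) (bw : BM (2 ^ 200) W)
    (h : KN.nqB A B n = true) :
    4 * (GR.sqM (GR.bkM Z) + GR.sqM (GR.bkM W)) ≤ (n : ℤ) * n := by
  have h0 := add_nonneg (sqM_nonneg (GR.bkM Z)) (sqM_nonneg (GR.bkM W))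
  refine ble_sound h ?_ (by linarith) ?_
  · rw [sqBk, sqBk]
    exact (Pool.Agent.Helper17.PAK.Rep.nat KN.MM 4).mul ((sB_rep r).add (sB_rep q))
  · have h1 := sqBk_bd bz
    have h2 := sqBk_bd bw
    have : 4 * ((4 : ℤ) * (2 ^ 200 * 2 ^ 200) + 4 * (2 ^ 200 * 2 ^ 200)) < 2 ^ 1152 := by
      decide +kernel
    linarith

end

/-! ### the values of the products -/

/-- `y* Q y` for the integer matrices -/
def QZ (K : Hm ℤ) (Z W : M9 ℤ) (y : Fin 3 → ℂ) : ℂ :=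
  sq2 (GR.qr (rH K) (rM Z) (rM W)) (GR.qi (rH K) (rM Z) (rM W)) y y

/-- `y* Q y` for the scaled true matrices -/
def QT (K : Hm ℤ) (T1 T2 : M9 ℝ) (y : Fin 3 → ℂ) : ℂ :=
  sq2 (GR.qr (rH K) (smM (2 ^ 48) T1) (smM (2 ^ 48) T2))
    (GR.qi (rH K) (smM (2 ^ 48) T1) (smM (2 ^ 48) T2)) y y

theorem rw_near {X X' : M9 ℝ} {r : ℝ} (h : NrM r X X') : NrM r (GR.rwM X) (GR.rwM X') := by
  have h0 : |(0 : ℝ) - 0| ≤ r := by
    rw [sub_zero, abs_zero]; exact (abs_nonneg _).trans h.a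
  exact ⟨h.a, h.b, h.c, h.d, h0, h0, h.g, h0, h0⟩

/-- the entries of `Q` -/
theorem Qe_near {K : Hm ℤ} {T1 T2 : M9 ℝ} {N1 N2 : M9 ℕ} {Z1 Z2 : M9 ℤ} (hK : BH (2 ^ 27) K)
    (h1 : OkT T1 N1 Z1) (h2 : OkT T2 N2 Z2) :
    NrM (46 / 5 * 2 ^ 90) (GR.qr (rH K) (rM Z1) (rM Z2))
      (GR.qr (rH K) (smM (2 ^ 48) T1) (smM (2 ^ 48) T2)) ∧
    NrM (46 / 5 * 2 ^ 90) (GR.qi (rH K) (rM Z1) (rM Z2))
      (GR.qi (rH K) (smM (2 ^ 48) T1) (smM (2 ^ 48) T2)) := by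
  have b1 : BrM ((2 ^ 54 : ℤ) : ℝ) (rM Z1) := rM_br h1.bd
  have b2 : BrM ((2 ^ 54 : ℤ) : ℝ) (rM Z2) := rM_br h2.bd
  have bR : BrM ((2 ^ 27 : ℤ) : ℝ) (GR.hR (rH K)) := by
    have := rM_br (hR_bd hK)
    rw [rM, GR.mp_hR] at this
    exact this
  have bJ : BrM ((2 ^ 27 : ℤ) : ℝ) (GR.hJ (rH K)) := by
    have := rM_br (hJ_bd hK)
    rw [rM, GR.mp_hJ] at this
    exact this
  have q1 := q_near bR b1 b2 h1.near h2.near
  have q2 := q_near bJ b1 b2 h1.near h2.near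
  have e : 9 * ((2 ^ 27 : ℤ) : ℝ) * (((2 ^ 54 : ℤ) : ℝ) * 256 + ((2 ^ 54 : ℤ) : ℝ) * 256 +
      256 * 256) ≤ 46 / 5 * 2 ^ 90 := by
    push_cast; norm_num
  have mono : ∀ {X Y : M9 ℝ} {r r' : ℝ}, r ≤ r' → NrM r X Y → NrM r' X Y := by
    intro X Y r r' hr h
    exact ⟨h.a.trans hr, h.b.trans hr, h.c.trans hr, h.d.trans hr, h.e.trans hr, h.f.trans hr,
      h.g.trans hr, h.h.trans hr, h.i.trans hr⟩
  exact ⟨mono e q1, mono e q2⟩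

theorem QB_near {K : Hm ℤ} {T1 T2 : M9 ℝ} {N1 N2 : M9 ℕ} {Z1 Z2 : M9 ℤ} (hK : BH (2 ^ 27) K)
    (h1 : OkT T1 N1 Z1) (h2 : OkT T2 N2 Z2) (y : Fin 3 → ℂ) :
    ‖QZ K Z1 Z2 y - QT K T1 T2 y‖ ≤ 46 * 2 ^ 90 * nr y := Q_near hK h1 h2 y

theorem QR_near {K : Hm ℤ} {T1 T2 : M9 ℝ} {N1 N2 : M9 ℕ} {Z1 Z2 : M9 ℤ} (hK : BH (2 ^ 27) K)
    (h1 : OkT T1 N1 Z1) (h2 : OkT T2 N2 Z2) (x : Fin 3 → ℂ) :
    ‖(QZ K Z1 Z2 x - QZ K Z1 Z2 (bkv x)) - (QT K T1 T2 x - QT K T1 T2 (bkv x))‖ ≤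
      46 * 2 ^ 90 * nr x := by
  obtain ⟨q1, q2⟩ := Qe_near hK h1 h2
  have h := sq2_near (rw_near q1) (rw_near q2) x
  rw [sq2_rw, sq2_rw] at h
  refine h.trans (le_of_eq ?_)
  ring

/-- the bound of a form -/
theorem hev_bd {K : Hm ℤ} (h : BH (2 ^ 27) K) (y : Fin 3 → ℂ) :
    |hev (rH K) y| ≤ 5 * 2 ^ 27 * nr y := by
  rw [hev_sq2]
  refine (abs_re_le_norm _).trans ?_
  have e1 : GR.hR (rH K) = rM (GR.hR K) := by rw [rM, GR.mp_hR]; rfl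
  have e2 : GR.hJ (rH K) = rM (GR.hJ K) := by rw [rM, GR.mp_hJ]; rfl
  rw [e1, e2]
  have h1 := sqM_bd (hR_bd h)
  have h2 := sqM_bd (hJ_bd h)
  have h3 : GR.sqM (GR.hR K) + GR.sqM (GR.hJ K) ≤ ((5 * 2 ^ 27 : ℕ) : ℤ) * ((5 * 2 ^ 27 : ℕ) : ℤ) := by
    push_cast
    nlinarith
  refine (sq2_bd h3 y).trans (le_of_eq ?_)
  push_cast
  ring

theorem _root_.Pool.Agent.Helper94.CXF.SD.BH.rw {K : Hm ℤ} {b : ℤ} (h : BH b K) : BH b (GR.rwH K) := by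
  have h0 : |(0 : ℤ)| ≤ b := by
    rw [abs_zero]; exact (abs_nonneg _).trans h.a
  exact ⟨h.a, h0, h0, h.d, h.e, h.f, h.g, h0, h0⟩

theorem hev_bdR {K : Hm ℤ} (h : BH (2 ^ 27) K) (x : Fin 3 → ℂ) :
    |hev (rH K) x - hev (rH K) (bkv x)| ≤ 5 * 2 ^ 27 * nr x := by
  have h1 := hev_bd h.rw x
  rw [rH, GR.mp_rwH, hev_rw] at h1
  exact h1

/-! ### node functions -/

def zs1 (k : KN.Nd) : ℤ := k.i * 2251799813685248
def zs3 (k : KN.Nd) : ℤ := k.i * k.i * k.i * 536870912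
def zur (k : KN.Nd) : ℤ := zX k * 4194304
def zui (k : KN.Nd) : ℤ := k.Y * 4194304
def zgr (k : KN.Nd) : ℤ := k.i * k.i * zX k
def zgi (k : KN.Nd) : ℤ := k.i * k.i * k.Y

theorem rp_fs (k : KN.Nd) : Rp (KN.fs k) (zs1 k) :=
  (Pool.Agent.Helper17.PAK.Rep.nat KN.MM k.i).mul
    (Pool.Agent.Helper17.PAK.Rep.nat KN.MM 2251799813685248)
theorem rp_fs3 (k : KN.Nd) : Rp (KN.fs3 k) (zs3 k) :=
  (((Pool.Agent.Helper17.PAK.Rep.nat KN.MM k.i).mul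
    (Pool.Agent.Helper17.PAK.Rep.nat KN.MM k.i)).mul
    (Pool.Agent.Helper17.PAK.Rep.nat KN.MM k.i)).mul
    (Pool.Agent.Helper17.PAK.Rep.nat KN.MM 536870912)
theorem rp_fur (k : KN.Nd) : Rp (KN.fur k) (zur k) :=
  (rp_nX k).mul (Pool.Agent.Helper17.PAK.Rep.nat KN.MM 4194304)
theorem rp_fui (k : KN.Nd) : Rp (KN.fui k) (zui k) :=
  (Pool.Agent.Helper17.PAK.Rep.nat KN.MM k.Y).mul
    (Pool.Agent.Helper17.PAK.Rep.nat KN.MM 4194304)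
theorem rp_fgr (k : KN.Nd) : Rp (KN.fgr k) (zgr k) :=
  ((Pool.Agent.Helper17.PAK.Rep.nat KN.MM k.i).mul
    (Pool.Agent.Helper17.PAK.Rep.nat KN.MM k.i)).mul (rp_nX k)
theorem rp_fgi (k : KN.Nd) : Rp (KN.fgi k) (zgi k) :=
  ((Pool.Agent.Helper17.PAK.Rep.nat KN.MM k.i).mul
    (Pool.Agent.Helper17.PAK.Rep.nat KN.MM k.i)).mul
    (Pool.Agent.Helper17.PAK.Rep.nat KN.MM k.Y)

section
variable {x0 : ℝ} {k : KN.Nd} {u : ℂ}
theorem zs1_bd (h : NdR x0 k u) : |zs1 k| ≤ 2 ^ 59 := by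
  obtain ⟨_, _, h3⟩ := h.bd
  have := abs_mul_le h3 (show |(2251799813685248 : ℤ)| ≤ 2 ^ 51 by norm_num)
  exact this.trans (by norm_num)
theorem zs3_bd (h : NdR x0 k u) : |zs3 k| ≤ 2 ^ 53 := by
  obtain ⟨_, _, h3⟩ := h.bd
  have := abs_mul_le (abs_mul_le (abs_mul_le h3 h3) h3)
    (show |(536870912 : ℤ)| ≤ 2 ^ 29 by norm_num)
  exact this.trans (by norm_num)
theorem zur_bd (h : NdR x0 k u) : |zur k| ≤ 2 ^ 63 := by
  obtain ⟨h1, _, _⟩ := h.bd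
  have := abs_mul_le h1 (show |(4194304 : ℤ)| ≤ 2 ^ 22 by norm_num)
  exact this.trans (by norm_num)
theorem zui_bd (h : NdR x0 k u) : |zui k| ≤ 2 ^ 63 := by
  obtain ⟨_, h2, _⟩ := h.bd
  have := abs_mul_le h2 (show |(4194304 : ℤ)| ≤ 2 ^ 22 by norm_num)
  exact this.trans (by norm_num)
theorem zgr_bd (h : NdR x0 k u) : |zgr k| ≤ 2 ^ 60 := by
  obtain ⟨h1, _, h3⟩ := h.bd
  have := abs_mul_le (abs_mul_le h3 h3) h1
  exact this.trans (by norm_num)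
theorem zgi_bd (h : NdR x0 k u) : |zgi k| ≤ 2 ^ 60 := by
  obtain ⟨_, h2, h3⟩ := h.bd
  have := abs_mul_le (abs_mul_le h3 h3) h2
  exact this.trans (by norm_num)
end

/-- the general value of a node in integers -/
theorem Vn_gen (k : KN.Nd) (c1 cs c2 c3 : ℝ) (qu qe qg : ℂ) :
    Vn k c1 cs c2 c3 qu qe qg =
      2 ^ 62 * c1 + zs1 k * cs + zs2 k * c2 + zs3 k * c3 +
        (zur k * (2 * qu.re) + zui k * (2 * qu.im)) +
        (zer k * (2 * qe.re) + zei k * (2 * qe.im)) +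
        (zgr k * (2 * qg.re) + zgi k * (2 * qg.im)) := by
  have e1 : ((k.i : ℂ) * 2 ^ 11 * Zu k) = ((k.i * 2048 : ℝ) : ℂ) * Zu k := by
    push_cast; norm_num
  have e2 : ((2 : ℂ) ^ 22 * Zu k) = ((4194304 : ℝ) : ℂ) * Zu k := by
    push_cast; norm_num
  have e3 : ((k.i : ℂ) ^ 2 * Zu k) = ((k.i ^ 2 : ℝ) : ℂ) * Zu k := by
    push_cast; norm_num
  simp only [Vn, e1, e2, e3, Zu_mul, zer, zei, zs2, zs1, zs3, zur, zui, zgr, zgi]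
  push_cast
  ring

end UUX
end Pool.Agent.Helper94.CXF.SD
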