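import Pool.Agent.Helper6.CXF.UU1

/-!
FARL, row UU, second part: the integer form at a node.
-/

set_option autoImplicit false
set_option exponentiation.threshold 4000
noncomputable section
namespace Pool.Agent.Helper94.CXF.SD
namespace UUX

open Pool.Agent.Helper86.CX renaming Hm → Hm, ev → hev
open Pool.Agent.Helper94.CXF (M9)
open Pool.Agent.Helper94.CXF
open Complex ComplexConjugate

/-- the row form at a node -/
def E7z (k : KN.Nd) (D1 A0 B0 A1 B1 S0 S1 : Hm ℤ) : Hm ℤ :=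
  GR.adH (GR.adH (GR.smH (2 ^ 62) D1) (GR.adH (GR.smH (zs1 k) S0) (GR.smH (zs2 k) S1)))
    (GR.adH (GR.adH (GR.smH (zur k) A0) (GR.smH (zui k) B0))
      (GR.adH (GR.smH (zer k) A1) (GR.smH (zei k) B1)))

/-- the block form at a node -/
def E8z (k : KN.Nd) (D0 D1 A0 B0 A1 B1 S0 S1 : Hm ℤ) : Hm ℤ :=
  GR.adH (GR.adH (GR.smH (2 ^ 62) D0) (GR.adH (GR.smH (zs1 k) D1)
      (GR.adH (GR.smH (zs2 k) S0) (GR.smH (zs3 k) S1))))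
    (GR.adH (GR.adH (GR.smH (zer k) A0) (GR.smH (zei k) B0))
      (GR.adH (GR.smH (zgr k) A1) (GR.smH (zgi k) B1)))

/-- the integer form of the test -/
def VUz (w : ℕ) (df db : ℤ) (k : KN.Nd) (D0 D1 A0 B0 A1 B1 S0 S1 : Hm ℤ) : Hm ℤ :=
  ⟨(w : ℤ) * (E7z k D1 A0 B0 A1 B1 S0 S1).a + df,
    2048 * (E8z k D0 D1 A0 B0 A1 B1 S0 S1).b + db,
    2048 * (E8z k D0 D1 A0 B0 A1 B1 S0 S1).c + db,
    (w : ℤ) * (E7z k D1 A0 B0 A1 B1 S0 S1).d, (w : ℤ) * (E7z k D1 A0 B0 A1 B1 S0 S1).e,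
    (w : ℤ) * (E7z k D1 A0 B0 A1 B1 S0 S1).f, (w : ℤ) * (E7z k D1 A0 B0 A1 B1 S0 S1).g,
    2048 * (E8z k D0 D1 A0 B0 A1 B1 S0 S1).h, 2048 * (E8z k D0 D1 A0 B0 A1 B1 S0 S1).i⟩

section
variable {k : KN.Nd} {D0 D1 A0 B0 A1 B1 S0 S1 : Hm ℕ} {D0' D1' A0' B0' A1' B1' S0' S1' : Hm ℤ}

theorem e7_rep {k : KN.Nd} {a b c d e f g : ℕ} {a' b' c' d' e' f' g' : ℤ} (ha : Rp a a')
    (hb : Rp b b') (hc : Rp c c') (hd : Rp d d') (he : Rp e e') (hf : Rp f f') (hg : Rp g g') :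
    Rp (KN.e7 (KN.fs k) (KN.fs2 k) (KN.fur k) (KN.fui k) (KN.fer k) (KN.fei k) a b c d e f g)
      ((2 ^ 62 * a' + (zs1 k * b' + zs2 k * c')) +
        ((zur k * d' + zui k * e') + (zer k * f' + zei k * g'))) :=
  (((rp_o62.mul ha).add (((rp_fs k).mul hb).add ((rp_fs2 k).mul hc))).add
    ((((rp_fur k).mul hd).add ((rp_fui k).mul he)).add
      (((rp_fer k).mul hf).add ((rp_fei k).mul hg)))).mod

theorem e8_rep {k : KN.Nd} {a b c d e f g h : ℕ} {a' b' c' d' e' f' g' h' : ℤ} (ha : Rp a a')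
    (hb : Rp b b') (hc : Rp c c') (hd : Rp d d') (he : Rp e e') (hf : Rp f f') (hg : Rp g g')
    (hh : Rp h h') :
    Rp (KN.e8 (KN.fs k) (KN.fs2 k) (KN.fs3 k) (KN.fer k) (KN.fei k) (KN.fgr k) (KN.fgi k)
        a b c d e f g h)
      ((2 ^ 62 * a' + (zs1 k * b' + (zs2 k * g' + zs3 k * h'))) +
        ((zer k * c' + zei k * d') + (zgr k * e' + zgi k * f'))) :=
  (((rp_o62.mul ha).add (((rp_fs k).mul hb).add (((rp_fs2 k).mul hg).add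
    ((rp_fs3 k).mul hh)))).add
    ((((rp_fer k).mul hc).add ((rp_fei k).mul hd)).add
      (((rp_fgr k).mul he).add ((rp_fgi k).mul hf)))).mod

theorem vU_rep {w df db : ℕ} {df' db' : ℤ} (hf : Rp df df') (hb : Rp db db')
    (d0 : RH D0 D0') (d1 : RH D1 D1') (a0 : RH A0 A0') (b0 : RH B0 B0') (a1 : RH A1 A1')
    (b1 : RH B1 B1') (s0 : RH S0 S0') (s1 : RH S1 S1') :
    RH (KN.vU w df db k D0 D1 A0 B0 A1 B1 S0 S1)
      (VUz w df' db' k D0' D1' A0' B0' A1' B1' S0' S1') := by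
  have hw := Pool.Agent.Helper17.PAK.Rep.nat KN.MM w
  have h2 := Pool.Agent.Helper17.PAK.Rep.nat KN.MM 2048
  refine ⟨(hw.mul (e7_rep d1.a s0.a s1.a a0.a b0.a a1.a b1.a)).add hf,
    (h2.mul (e8_rep d0.b d1.b a0.b b0.b a1.b b1.b s0.b s1.b)).add hb,
    (h2.mul (e8_rep d0.c d1.c a0.c b0.c a1.c b1.c s0.c s1.c)).add hb,
    hw.mul (e7_rep d1.d s0.d s1.d a0.d b0.d a1.d b1.d),
    hw.mul (e7_rep d1.e s0.e s1.e a0.e b0.e a1.e b1.e),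
    hw.mul (e7_rep d1.f s0.f s1.f a0.f b0.f a1.f b1.f),
    hw.mul (e7_rep d1.g s0.g s1.g a0.g b0.g a1.g b1.g),
    h2.mul (e8_rep d0.h d1.h a0.h b0.h a1.h b1.h s0.h s1.h),
    h2.mul (e8_rep d0.i d1.i a0.i b0.i a1.i b1.i s0.i s1.i)⟩

end

section
variable {k : KN.Nd} {D0 D1 A0 B0 A1 B1 S0 S1 : Hm ℤ}

theorem hev_E7 (y : Fin 3 → ℂ) : hev (rH (E7z k D1 A0 B0 A1 B1 S0 S1)) y =
    2 ^ 62 * hev (rH D1) y + zs1 k * hev (rH S0) y + zs2 k * hev (rH S1) y +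
      (zur k * hev (rH A0) y + zui k * hev (rH B0) y) +
      (zer k * hev (rH A1) y + zei k * hev (rH B1) y) := by
  rw [E7z]
  simp only [hev_ad, hev_sm']
  push_cast
  ring

theorem hev_E8 (y : Fin 3 → ℂ) : hev (rH (E8z k D0 D1 A0 B0 A1 B1 S0 S1)) y =
    2 ^ 62 * hev (rH D0) y + zs1 k * hev (rH D1) y + zs2 k * hev (rH S0) y +
      zs3 k * hev (rH S1) y +
      (zer k * hev (rH A0) y + zei k * hev (rH B0) y) +
      (zgr k * hev (rH A1) y + zgi k * hev (rH B1) y) := by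
  rw [E8z]
  simp only [hev_ad, hev_sm']
  push_cast
  ring

theorem hev_VU (w : ℕ) (df db : ℤ) (x : Fin 3 → ℂ) :
    hev (rH (VUz w df db k D0 D1 A0 B0 A1 B1 S0 S1)) x =
      w * (hev (rH (E7z k D1 A0 B0 A1 B1 S0 S1)) x -
        hev (rH (E7z k D1 A0 B0 A1 B1 S0 S1)) (bkv x)) +
      2048 * hev (rH (E8z k D0 D1 A0 B0 A1 B1 S0 S1)) (bkv x) + df * normSq (x 0) +
        db * nr (bkv x) := by
  rw [← hev_rw, ← hev_bk, nr_bkv, VUz]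
  generalize E7z k D1 A0 B0 A1 B1 S0 S1 = E
  generalize E8z k D0 D1 A0 B0 A1 B1 S0 S1 = F
  simp only [hev, GR.rwH, GR.bkH, rH, GR.mpH, cI_apply]
  simp
  ring

theorem E7_bd {x0 : ℝ} {u : ℂ} (h : NdR x0 k u) (d1 : BH (2 ^ 141) D1)
    (a0 : BH (2 ^ 141) A0) (b0 : BH (2 ^ 141) B0) (a1 : BH (2 ^ 141) A1) (b1 : BH (2 ^ 141) B1)
    (s0 : BH (2 ^ 141) S0) (s1 : BH (2 ^ 141) S1) :
    BH (2 ^ 207) (E7z k D1 A0 B0 A1 B1 S0 S1) := by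
  refine (adH_bd (adH_bd (smH_bd (r := 2 ^ 62) (by norm_num) d1)
    (adH_bd (smH_bd (zs1_bd h) s0) (smH_bd (zs2_bd h) s1)))
    (adH_bd (adH_bd (smH_bd (zur_bd h) a0) (smH_bd (zui_bd h) b0))
      (adH_bd (smH_bd (zer_bd h) a1) (smH_bd (zei_bd h) b1)))).mono ?_
  norm_num

theorem E8_bd {x0 : ℝ} {u : ℂ} (h : NdR x0 k u) (d0 : BH (2 ^ 141) D0) (d1 : BH (2 ^ 141) D1)
    (a0 : BH (2 ^ 141) A0) (b0 : BH (2 ^ 141) B0) (a1 : BH (2 ^ 141) A1) (b1 : BH (2 ^ 141) B1)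
    (s0 : BH (2 ^ 141) S0) (s1 : BH (2 ^ 141) S1) :
    BH (2 ^ 207) (E8z k D0 D1 A0 B0 A1 B1 S0 S1) := by
  refine (adH_bd (adH_bd (smH_bd (r := 2 ^ 62) (by norm_num) d0)
    (adH_bd (smH_bd (zs1_bd h) d1) (adH_bd (smH_bd (zs2_bd h) s0) (smH_bd (zs3_bd h) s1))))
    (adH_bd (adH_bd (smH_bd (zer_bd h) a0) (smH_bd (zei_bd h) b0))
      (adH_bd (smH_bd (zgr_bd h) a1) (smH_bd (zgi_bd h) b1)))).mono ?_
  norm_num

theorem VU_bd {x0 : ℝ} {u : ℂ} (h : NdR x0 k u) {w : ℕ} {df db : ℤ} (hw : w ≤ 256)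
    (hf : |df| ≤ 2 ^ 250) (hb : |db| ≤ 2 ^ 250) (d0 : BH (2 ^ 141) D0) (d1 : BH (2 ^ 141) D1)
    (a0 : BH (2 ^ 141) A0) (b0 : BH (2 ^ 141) B0) (a1 : BH (2 ^ 141) A1) (b1 : BH (2 ^ 141) B1)
    (s0 : BH (2 ^ 141) S0) (s1 : BH (2 ^ 141) S1) :
    BH (2 ^ 256) (VUz w df db k D0 D1 A0 B0 A1 B1 S0 S1) := by
  have E7 := E7_bd h d1 a0 b0 a1 b1 s0 s1
  have E8 := E8_bd h d0 d1 a0 b0 a1 b1 s0 s1
  have hw' : |(w : ℤ)| ≤ 2 ^ 8 := by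
    rw [abs_of_nonneg (by positivity)]; exact_mod_cast hw
  have m7 : ∀ z : ℤ, |z| ≤ 2 ^ 207 → |(w : ℤ) * z| ≤ 2 ^ 215 := fun z hz =>
    (abs_mul_le hw' hz).trans (by norm_num)
  have m8 : ∀ z : ℤ, |z| ≤ 2 ^ 207 → |2048 * z| ≤ 2 ^ 218 := fun z hz =>
    (abs_mul_le (show |(2048 : ℤ)| ≤ 2 ^ 11 by norm_num) hz).trans (by norm_num)
  refine ⟨?_, ?_, ?_, ?_, ?_, ?_, ?_, ?_, ?_⟩
  · exact (abs_add2 (m7 _ E7.a) hf).trans (by norm_num)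
  · exact (abs_add2 (m8 _ E8.b) hb).trans (by norm_num)
  · exact (abs_add2 (m8 _ E8.c) hb).trans (by norm_num)
  · exact (m7 _ E7.d).trans (by norm_num)
  · exact (m7 _ E7.e).trans (by norm_num)
  · exact (m7 _ E7.f).trans (by norm_num)
  · exact (m7 _ E7.g).trans (by norm_num)
  · exact (m8 _ E8.h).trans (by norm_num)
  · exact (m8 _ E8.i).trans (by norm_num)

end

/-! ### bounds of the slacks -/

theorem dG_le {x i : ℕ} (hx : x ≤ 2 ^ 17) (hi : i ≤ 256) : KN.dG x i ≤ 2 ^ 57 := by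
  have e : KN.dG x i = (i * i) * (274877906944 + x * 1687552) + 16777216 := by simp [KN.dG]
  rw [e]
  have h1 : i * i ≤ 256 * 256 := Nat.mul_le_mul hi hi
  have h2 : 274877906944 + x * 1687552 ≤ 274877906944 + 2 ^ 17 * 1687552 :=
    Nat.add_le_add_left (Nat.mul_le_mul_right _ hx) _
  have h3 := Nat.mul_le_mul h1 h2
  refine (Nat.add_le_add_right h3 _).trans ?_
  norm_num
theorem dC_le {i : ℕ} (hi : i ≤ 256) : KN.dC i ≤ 2 ^ 57 := by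
  have e : KN.dC i = (i * i) * 103079215104 := by simp [KN.dC]
  rw [e]
  have h1 : i * i ≤ 256 * 256 := Nat.mul_le_mul hi hi
  refine (Nat.mul_le_mul_right _ h1).trans ?_
  norm_num

theorem p160_eq : KN.p160 = 2 ^ 160 := by decide +kernel

theorem slr_eq (x d nu ne m : ℕ) :
    KN.slr x d nu ne m = KN.dU x d * nu + KN.dE x d * ne + (KN.dS d * m + 2 ^ 160) := by
  rw [← p160_eq]; rfl

theorem slr_le {x d nu ne m : ℕ} (hx : x ≤ 2 ^ 17) (hd : d ≤ 256) (hu : nu ≤ 2 ^ 145)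
    (he : ne ≤ 2 ^ 145) (hm : m ≤ 2 ^ 145) : KN.slr x d nu ne m ≤ 2 ^ 205 := by
  rw [slr_eq]
  have a1 := Nat.mul_le_mul (dU_le hx hd) hu
  have a2 := Nat.mul_le_mul (dE_le hx hd) he
  have a3 := Nat.mul_le_mul ((dS_le hd).trans (show 2 ^ 54 ≤ 2 ^ 57 by norm_num)) hm
  have a4 : (2 : ℕ) ^ 57 * 2 ^ 145 = 2 ^ 202 := by norm_num
  rw [a4] at a1 a2 a3
  have a5 : (2 : ℕ) ^ 202 + 2 ^ 202 + (2 ^ 202 + 2 ^ 160) ≤ 2 ^ 205 := by norm_num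
  exact (Nat.add_le_add (Nat.add_le_add a1 a2) (Nat.add_le_add a3 le_rfl)).trans a5

theorem sF_eq (x d w : ℕ) (t : KN.LU) : KN.sF x d w t = w * KN.slr x d t.nu t.ne t.m := rfl

theorem sD_eq (x d : ℕ) (t : KN.LU) : KN.sD x d t =
    2048 * ((KN.dE x d * t.be + KN.dG x d * t.bg) + (KN.dS d * t.b0 + KN.dC d * t.b1 + 2 ^ 160)) := by
  rw [← p160_eq]; rfl

theorem sF_le {x d w : ℕ} {t : KN.LU} (hx : x ≤ 2 ^ 17) (hd : d ≤ 256) (hw : w ≤ 256)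
    (hu : t.nu ≤ 2 ^ 145) (he : t.ne ≤ 2 ^ 145) (hm : t.m ≤ 2 ^ 145) :
    KN.sF x d w t ≤ 2 ^ 213 := by
  rw [sF_eq]
  have := Nat.mul_le_mul hw (slr_le hx hd hu he hm)
  have a4 : 256 * (2 : ℕ) ^ 205 = 2 ^ 213 := by norm_num
  rw [a4] at this
  exact this

theorem sD_le {x d : ℕ} {t : KN.LU} (hx : x ≤ 2 ^ 17) (hd : d ≤ 256)
    (he : t.be ≤ 2 ^ 145) (hg : t.bg ≤ 2 ^ 145) (h0 : t.b0 ≤ 2 ^ 145) (h1 : t.b1 ≤ 2 ^ 145) :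
    KN.sD x d t ≤ 2 ^ 216 := by
  rw [sD_eq]
  have a1 := Nat.mul_le_mul (dE_le hx hd) he
  have a2 := Nat.mul_le_mul (dG_le hx hd) hg
  have a3 := Nat.mul_le_mul ((dS_le hd).trans (show 2 ^ 54 ≤ 2 ^ 57 by norm_num)) h0
  have a3' := Nat.mul_le_mul (dC_le hd) h1
  have a4 : (2 : ℕ) ^ 57 * 2 ^ 145 = 2 ^ 202 := by norm_num
  rw [a4] at a1 a2 a3 a3'
  have a5 : (KN.dE x d * t.be + KN.dG x d * t.bg) + (KN.dS d * t.b0 + KN.dC d * t.b1 + 2 ^ 160) ≤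
      2 ^ 205 := by
    have : (2 : ℕ) ^ 202 + 2 ^ 202 + (2 ^ 202 + 2 ^ 202 + 2 ^ 160) ≤ 2 ^ 205 := by norm_num
    exact (Nat.add_le_add (Nat.add_le_add a1 a2)
      (Nat.add_le_add (Nat.add_le_add a3 a3') le_rfl)).trans this
  have a6 := Nat.mul_le_mul_left 2048 a5
  have a7 : 2048 * (2 : ℕ) ^ 205 = 2 ^ 216 := by norm_num
  rw [a7] at a6
  exact a6

end UUX
end Pool.Agent.Helper94.CXF.SD
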