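import Pool.Agent.Helper6.CXF.UU2

/-!
FARL, row UU, third part: one chord.
-/

set_option autoImplicit false
set_option exponentiation.threshold 4000
noncomputable section
namespace Pool.Agent.Helper94.CXF.SD
namespace UUX

open Pool.Agent.Helper86.CX renaming Hm → Hm, ev → hev
open Pool.Agent.Helper94.CXF (M9)
open Pool.Agent.Helper94.CXF
open Complex ComplexConjugate

theorem bkv_bkv (x : Fin 3 → ℂ) : bkv (bkv x) = bkv x := rfl

/-- error of `Vv` -/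
theorem Vv_near {x0 s : ℝ} {u : ℂ} (h : Cv x0 s u) {c1 cs c2 c3 c1' cs' c2' c3' : ℝ}
    {qu qe qg qu' qe' qg' : ℂ} {e1 e2 e3 e4 e5 e6 e7 : ℝ} (h1 : |c1 - c1'| ≤ e1)
    (h2 : |cs - cs'| ≤ e2) (h3 : |c2 - c2'| ≤ e3) (h4 : |c3 - c3'| ≤ e4) (h5 : ‖qu - qu'‖ ≤ e5)
    (h6 : ‖qe - qe'‖ ≤ e6) (h7 : ‖qg - qg'‖ ≤ e7) :
    Vv s u c1 cs c2 c3 qu qe qg ≤ Vv s u c1' cs' c2' c3' qu' qe' qg' +
      (e1 + e2 / 8 + e3 / 64 + e4 / 512 + 2 * e5 + e6 / 4 + e7 / 32) := by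
  have s0 := h.s0
  have s1 := h.s1
  have n2 : s ^ 2 ≤ 1 / 64 := by nlinarith
  have n3 : s ^ 3 ≤ 1 / 512 := by
    have : s ^ 3 = s * s ^ 2 := by ring
    rw [this]; nlinarith [sq_nonneg s]
  have p3 : 0 ≤ s ^ 3 := by positivity
  have k1 : c1 - c1' ≤ e1 := (le_abs_self _).trans h1
  have k2 : s * cs - s * cs' ≤ e2 / 8 := by
    have : s * cs - s * cs' ≤ s * |cs - cs'| := by
      rw [← mul_sub]; exact mul_le_mul_of_nonneg_left (le_abs_self _) s0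
    have := mul_le_mul s1 h2 (abs_nonneg _) (by norm_num)
    linarith
  have k3 : s ^ 2 * c2 - s ^ 2 * c2' ≤ e3 / 64 := by
    have : s ^ 2 * c2 - s ^ 2 * c2' ≤ s ^ 2 * |c2 - c2'| := by
      rw [← mul_sub]; exact mul_le_mul_of_nonneg_left (le_abs_self _) (sq_nonneg s)
    have := mul_le_mul n2 h3 (abs_nonneg _) (by norm_num)
    linarith
  have k4 : s ^ 3 * c3 - s ^ 3 * c3' ≤ e4 / 512 := by
    have : s ^ 3 * c3 - s ^ 3 * c3' ≤ s ^ 3 * |c3 - c3'| := by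
      rw [← mul_sub]; exact mul_le_mul_of_nonneg_left (le_abs_self _) p3
    have := mul_le_mul n3 h4 (abs_nonneg _) (by norm_num)
    linarith
  have k5 : (u * qu).re - (u * qu').re ≤ e5 := by
    rw [← sub_re, ← mul_sub]
    refine (re_le_norm _).trans ?_
    rw [norm_mul, h.norm, one_mul]
    exact h5
  have k6 : ((s * u) * qe).re - ((s * u) * qe').re ≤ e6 / 8 := by
    rw [← sub_re, ← mul_sub]
    refine (re_le_norm _).trans ?_
    rw [norm_mul, norm_mul, h.norm, mul_one, Complex.norm_real, Real.norm_eq_abs,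
      abs_of_nonneg s0]
    have := mul_le_mul s1 h6 (norm_nonneg _) (by norm_num)
    linarith
  have k7 : ((s * (s * u)) * qg).re - ((s * (s * u)) * qg').re ≤ e7 / 64 := by
    rw [← sub_re, ← mul_sub]
    refine (re_le_norm _).trans ?_
    rw [norm_mul, norm_mul, norm_mul, h.norm, mul_one, Complex.norm_real, Real.norm_eq_abs,
      abs_of_nonneg s0]
    have : s * s ≤ 1 / 64 := by nlinarith
    have := mul_le_mul this h7 (norm_nonneg _) (by norm_num)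
    linarith
  simp only [Vv]
  linarith

/-- the data of a block test -/
structure UD (KAz KBz HAz HBz : Hm ℤ) (T0 T1 : M9 ℝ) (N0 N1 : M9 ℕ) (Z0 Z1 : M9 ℤ) : Prop where
  bA : BH (2 ^ 27) KAz
  bB : BH (2 ^ 27) KBz
  cA : BH (2 ^ 27) HAz
  cB : BH (2 ^ 27) HBz
  o0 : OkT T0 N0 Z0
  o1 : OkT T1 N1 Z1

/-- coefficients with the integer matrices and with the true ones -/
def pz (Z0 : M9 ℤ) : ℤ := -(Z0.a * Z0.a)
def pt (T0 : M9 ℝ) : ℝ := -((2 ^ 48 * T0.a) * (2 ^ 48 * T0.a))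

section
variable {KAz KBz HAz HBz : Hm ℤ} {T0 T1 : M9 ℝ} {N0 N1 : M9 ℕ} {Z0 Z1 : M9 ℤ}

theorem UD.pp (D : UD KAz KBz HAz HBz T0 T1 N0 N1 Z0 Z1) :
    |(pz Z0 : ℝ) - pt T0| ≤ 2 ^ 63 + 2 ^ 16 := by
  have h1 : |(Z0.a : ℝ)| ≤ 2 ^ 54 := by
    have := D.o0.bd.a
    rw [← Int.cast_abs]
    exact_mod_cast this
  have h2 : |(Z0.a : ℝ) - 2 ^ 48 * T0.a| ≤ 256 := D.o0.near.a
  have h3 := pr_near h1 h1 h2 h2
  have e : (pz Z0 : ℝ) - pt T0 = -(Z0.a * Z0.a - (2 ^ 48 * T0.a) * (2 ^ 48 * T0.a)) := by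
    rw [pz, pt]; push_cast; ring
  rw [e, abs_neg]
  refine h3.trans ?_
  norm_num

theorem UD.form (D : UD KAz KBz HAz HBz T0 T1 N0 N1 Z0 Z1) {H : Hm ℤ} (hH : BH (2 ^ 27) H)
    (y : Fin 3 → ℂ) :
    |(pz Z0 : ℝ) * hev (rH H) y - pt T0 * hev (rH H) y| ≤ 6 * 2 ^ 90 * nr y := by
  rw [← sub_mul, abs_mul]
  have n0 := nr_nonneg y
  refine (mul_le_mul D.pp (hev_bd hH y) (abs_nonneg _) (by norm_num)).trans ?_
  rw [← mul_assoc]
  refine mul_le_mul_of_nonneg_right ?_ n0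
  norm_num

theorem UD.formR (D : UD KAz KBz HAz HBz T0 T1 N0 N1 Z0 Z1) {H : Hm ℤ} (hH : BH (2 ^ 27) H)
    (x : Fin 3 → ℂ) :
    |(pz Z0 : ℝ) * (hev (rH H) x - hev (rH H) (bkv x)) -
      pt T0 * (hev (rH H) x - hev (rH H) (bkv x))| ≤ 6 * 2 ^ 90 * nr x := by
  rw [← sub_mul, abs_mul]
  have n0 := nr_nonneg x
  refine (mul_le_mul D.pp (hev_bdR hH x) (abs_nonneg _) (by norm_num)).trans ?_
  rw [← mul_assoc]
  refine mul_le_mul_of_nonneg_right ?_ n0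
  norm_num

/-- the row value at a point -/
def VR (s : ℝ) (u : ℂ) (x : Fin 3 → ℂ) (p : ℝ) (qA qB : (Fin 3 → ℂ) → ℂ)
    (a11 b11 b00 hB : (Fin 3 → ℂ) → ℝ) : ℝ :=
  Vv s u ((b00 x - b00 (bkv x)) + p * (hB x - hB (bkv x))) (a11 x - a11 (bkv x))
    (b11 x - b11 (bkv x)) 0 (qA x - qA (bkv x)) (qB x - qB (bkv x)) 0

/-- the block value at a point -/
def VB (s : ℝ) (u : ℂ) (y : Fin 3 → ℂ) (p : ℝ) (qA qB : (Fin 3 → ℂ) → ℂ)
    (a11 b11 a00 b00 hA hB : (Fin 3 → ℂ) → ℝ) : ℝ :=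
  Vv s u (a00 y + p * hA y) (b00 y + p * hB y) (a11 y) (b11 y) 0 (qA y) (qB y)

theorem re_near {z w : ℂ} {c : ℝ} (h : ‖z - w‖ ≤ c) : |z.re - w.re| ≤ c := by
  rw [← sub_re]
  exact (abs_re_le_norm _).trans h

theorem abs4 {p q r w a b : ℝ} (h1 : |p - r| ≤ a) (h2 : |q - w| ≤ b) :
    |(p + q) - (r + w)| ≤ a + b := by
  have e : (p + q) - (r + w) = (p - r) + (q - w) := by ring
  rw [e]
  exact (abs_add_le _ _).trans (add_le_add h1 h2)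

theorem UD.vr (D : UD KAz KBz HAz HBz T0 T1 N0 N1 Z0 Z1) {x0 s : ℝ} {u : ℂ} (h : Cv x0 s u)
    (x : Fin 3 → ℂ) :
    VR s u x (pz Z0) (QZ KAz Z0 Z1) (QZ KBz Z0 Z1) (fun y => (QZ KAz Z1 Z1 y).re)
      (fun y => (QZ KBz Z1 Z1 y).re) (fun y => (QZ KBz Z0 Z0 y).re) (hev (rH HBz)) ≤
    VR s u x (pt T0) (QT KAz T0 T1) (QT KBz T0 T1) (fun y => (QT KAz T1 T1 y).re)
      (fun y => (QT KBz T1 T1 y).re) (fun y => (QT KBz T0 T0 y).re) (hev (rH HBz)) +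
      180 * 2 ^ 90 * nr x := by
  have n0 := nr_nonneg x
  have a1 := QR_near D.bB D.o0 D.o0 x
  have a2 := QR_near D.bA D.o1 D.o1 x
  have a3 := QR_near D.bB D.o1 D.o1 x
  have a4 := QR_near D.bA D.o0 D.o1 x
  have a5 := QR_near D.bB D.o0 D.o1 x
  have f := D.formR D.cB x
  have b1 := re_near a1
  have b2 := re_near a2
  have b3 := re_near a3
  simp only [sub_re] at b1 b2 b3
  have c := abs4 b1 f
  have key := Vv_near h c b2 b3 (show |(0 : ℝ) - 0| ≤ 0 by simp) a4 a5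
    (show ‖(0 : ℂ) - 0‖ ≤ 0 by simp)
  simp only [VR]
  refine key.trans ?_
  linarith

theorem UD.vb (D : UD KAz KBz HAz HBz T0 T1 N0 N1 Z0 Z1) {x0 s : ℝ} {u : ℂ} (h : Cv x0 s u)
    (y : Fin 3 → ℂ) :
    VB s u y (pz Z0) (QZ KAz Z0 Z1) (QZ KBz Z0 Z1) (fun y => (QZ KAz Z1 Z1 y).re)
      (fun y => (QZ KBz Z1 Z1 y).re) (fun y => (QZ KAz Z0 Z0 y).re)
      (fun y => (QZ KBz Z0 Z0 y).re) (hev (rH HAz)) (hev (rH HBz)) ≤
    VB s u y (pt T0) (QT KAz T0 T1) (QT KBz T0 T1) (fun y => (QT KAz T1 T1 y).re)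
      (fun y => (QT KBz T1 T1 y).re) (fun y => (QT KAz T0 T0 y).re)
      (fun y => (QT KBz T0 T0 y).re) (hev (rH HAz)) (hev (rH HBz)) + 180 * 2 ^ 90 * nr y := by
  have n0 := nr_nonneg y
  have a0 := QB_near D.bA D.o0 D.o0 y
  have a1 := QB_near D.bB D.o0 D.o0 y
  have a2 := QB_near D.bA D.o1 D.o1 y
  have a3 := QB_near D.bB D.o1 D.o1 y
  have a4 := QB_near D.bA D.o0 D.o1 y
  have a5 := QB_near D.bB D.o0 D.o1 y
  have f := D.form D.cA y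
  have g := D.form D.cB y
  have b0 := re_near a0
  have b1 := re_near a1
  have b2 := re_near a2
  have b3 := re_near a3
  have c := abs4 b0 f
  have d := abs4 b1 g
  have key := Vv_near h c d b2 b3 (show ‖(0 : ℂ) - 0‖ ≤ 0 by simp) a4 a5
  simp only [VB]
  refine key.trans ?_
  linarith

end

end UUX
end Pool.Agent.Helper94.CXF.SD
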