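import Pool.Agent.Helper6.CXF.UU3

/-!
FARL, row UU, fourth part: the test on a chord, and the theorem.
-/

set_option autoImplicit false
set_option exponentiation.threshold 4000
noncomputable section
namespace Pool.Agent.Helper94.CXF.SD
namespace UUX

open Pool.Agent.Helper86.CX renaming Hm → Hm, ev → hev
open Pool.Agent.Helper94.CXF (M9)
open Pool.Agent.Helper94.CXF
open Complex ComplexConjugate

section
variable {x0 : ℝ} {x : ℕ} {k0 k1 : KN.Nd} {u0 u1 u : ℂ} {s : ℝ}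
  {KA KB HA HB : Hm ℕ} {KAz KBz HAz HBz : Hm ℤ} {T0 T1 : M9 ℝ} {N0 N1 : M9 ℕ} {Z0 Z1 : M9 ℤ}

def D0z (KAz HAz : Hm ℤ) (Z0 : M9 ℤ) : Hm ℤ :=
  GR.adH (GR.hm (GR.qr KAz Z0 Z0) (GR.qi KAz Z0 Z0)) (GR.smH (pz Z0) HAz)

theorem hev_D0z (y : Fin 3 → ℂ) : hev (rH (D0z KAz HAz Z0)) y =
    (QZ KAz Z0 Z0 y).re + pz Z0 * hev (rH HAz) y := by
  rw [D0z, hev_ad, hev_PZ, hev_sm']; rfl

theorem D0z_bd (bK : BH (2 ^ 27) KAz) (bH : BH (2 ^ 27) HAz) (bZ : BM (2 ^ 54) Z0) :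
    BH (2 ^ 141) (D0z KAz HAz Z0) := by
  have b00 := (qr_bd bK bZ bZ).mono (b := 2 ^ 140) (by norm_num)
  have c00 := (qi_bd bK bZ bZ).mono (b := 2 ^ 140) (by norm_num)
  have hp : |pz Z0| ≤ 2 ^ 108 := by
    rw [pz, abs_neg]
    exact (abs_mul_le bZ.a bZ.a).trans (by norm_num)
  exact (adH_bd (hm_bd b00 c00) (smH_bd hp bH)).mono (by norm_num)

/-- one node -/
theorem node8 (hKA : RH KA KAz) (hKB : RH KB KBz) (hHA : RH HA HAz) (hHB : RH HB HBz)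
    (D : UD KAz KBz HAz HBz T0 T1 N0 N1 Z0 Z1) {k : KN.Nd} {v : ℂ} (hk : NdR x0 k v) {w F G : ℕ}
    (hw : w ≤ 256) (hF : F ≤ 2 ^ 220) (hG : G ≤ 2 ^ 220)
    (h : KN.psd (KN.vU w (KN.ng F) (KN.ng (Nat.add F G)) k
      (KN.adH (KN.hm (KN.qr KA N0 N0) (KN.qi KA N0 N0)) (KN.smH (KN.ng (Nat.mul N0.a N0.a)) HA))
      (KN.adH (KN.hm (KN.qr KB N0 N0) (KN.qi KB N0 N0)) (KN.smH (KN.ng (Nat.mul N0.a N0.a)) HB))
      (KN.cA (KN.qr KA N0 N1) (KN.qi KA N0 N1)) (KN.cB (KN.qr KA N0 N1) (KN.qi KA N0 N1))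
      (KN.cA (KN.qr KB N0 N1) (KN.qi KB N0 N1)) (KN.cB (KN.qr KB N0 N1) (KN.qi KB N0 N1))
      (KN.hm (KN.qr KA N1 N1) (KN.qi KA N1 N1)) (KN.hm (KN.qr KB N1 N1) (KN.qi KB N1 N1))) = true)
    (y : Fin 3 → ℂ) :
    F * nr y + G * nr (bkv y) ≤
      w * Vn k (((QZ KBz Z0 Z0 y).re - (QZ KBz Z0 Z0 (bkv y)).re) +
          pz Z0 * (hev (rH HBz) y - hev (rH HBz) (bkv y)))
        ((QZ KAz Z1 Z1 y).re - (QZ KAz Z1 Z1 (bkv y)).re)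
        ((QZ KBz Z1 Z1 y).re - (QZ KBz Z1 Z1 (bkv y)).re) 0
        (QZ KAz Z0 Z1 y - QZ KAz Z0 Z1 (bkv y)) (QZ KBz Z0 Z1 y - QZ KBz Z0 Z1 (bkv y)) 0 +
      2048 * Vn k ((QZ KAz Z0 Z0 (bkv y)).re + pz Z0 * hev (rH HAz) (bkv y))
        ((QZ KBz Z0 Z0 (bkv y)).re + pz Z0 * hev (rH HBz) (bkv y))
        (QZ KAz Z1 Z1 (bkv y)).re (QZ KBz Z1 Z1 (bkv y)).re 0
        (QZ KAz Z0 Z1 (bkv y)) (QZ KBz Z0 Z1 (bkv y)) := by
  have o0 := D.o0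
  have o1 := D.o1
  have rp : Rp (KN.ng (Nat.mul N0.a N0.a)) (pz Z0) := rp_ng (o0.rep.a.mul o0.rep.a)
  have RD0 : RH (KN.adH (KN.hm (KN.qr KA N0 N0) (KN.qi KA N0 N0))
      (KN.smH (KN.ng (Nat.mul N0.a N0.a)) HA)) (D0z KAz HAz Z0) :=
    adH_rep (hm_rep (qr_rep hKA o0.rep o0.rep) (qi_rep hKA o0.rep o0.rep)) (smH_rep rp hHA)
  have RD1 : RH (KN.adH (KN.hm (KN.qr KB N0 N0) (KN.qi KB N0 N0))
      (KN.smH (KN.ng (Nat.mul N0.a N0.a)) HB)) (D0z KBz HBz Z0) :=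
    adH_rep (hm_rep (qr_rep hKB o0.rep o0.rep) (qi_rep hKB o0.rep o0.rep)) (smH_rep rp hHB)
  have RA0 := cA_rep (qr_rep hKA o0.rep o1.rep) (qi_rep hKA o0.rep o1.rep)
  have RB0 := cB_rep (qr_rep hKA o0.rep o1.rep) (qi_rep hKA o0.rep o1.rep)
  have RA1 := cA_rep (qr_rep hKB o0.rep o1.rep) (qi_rep hKB o0.rep o1.rep)
  have RB1 := cB_rep (qr_rep hKB o0.rep o1.rep) (qi_rep hKB o0.rep o1.rep)
  have RS0 := hm_rep (qr_rep hKA o1.rep o1.rep) (qi_rep hKA o1.rep o1.rep)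
  have RS1 := hm_rep (qr_rep hKB o1.rep o1.rep) (qi_rep hKB o1.rep o1.rep)
  have rF : Rp (KN.ng F) (-(F : ℤ)) := rp_ng (Pool.Agent.Helper17.PAK.Rep.nat KN.MM F)
  have rG : Rp (KN.ng (Nat.add F G)) (-((F + G : ℕ) : ℤ)) :=
    rp_ng (Pool.Agent.Helper17.PAK.Rep.nat KN.MM (F + G))
  have hR := vU_rep (w := w) (k := k) rF rG RD0 RD1 RA0 RB0 RA1 RB1 RS0 RS1
  have m1 : (2 : ℤ) ^ 140 ≤ 2 ^ 141 := by norm_num
  have qA00 := (qr_bd D.bA o0.bd o1.bd).mono (b := 2 ^ 140) (by norm_num)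
  have jA00 := (qi_bd D.bA o0.bd o1.bd).mono (b := 2 ^ 140) (by norm_num)
  have qB00 := (qr_bd D.bB o0.bd o1.bd).mono (b := 2 ^ 140) (by norm_num)
  have jB00 := (qi_bd D.bB o0.bd o1.bd).mono (b := 2 ^ 140) (by norm_num)
  have qA11 := (qr_bd D.bA o1.bd o1.bd).mono (b := 2 ^ 141) (by norm_num)
  have jA11 := (qi_bd D.bA o1.bd o1.bd).mono (b := 2 ^ 141) (by norm_num)
  have qB11 := (qr_bd D.bB o1.bd o1.bd).mono (b := 2 ^ 141) (by norm_num)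
  have jB11 := (qi_bd D.bB o1.bd o1.bd).mono (b := 2 ^ 141) (by norm_num)
  have hB := VU_bd hk hw (df := -(F : ℤ)) (db := -((F + G : ℕ) : ℤ))
    (by
      rw [abs_neg, abs_of_nonneg (by positivity)]
      have : F ≤ 2 ^ 250 := hF.trans (by norm_num)
      exact_mod_cast this)
    (by
      rw [abs_neg, abs_of_nonneg (by positivity)]
      have : F + G ≤ 2 ^ 250 := (Nat.add_le_add hF hG).trans (by norm_num)
      exact_mod_cast this)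
    (D0z_bd D.bA D.cA o0.bd) (D0z_bd D.bB D.cB o0.bd)
    ((cA_bd qA00 jA00).mono (b := 2 ^ 141) (by norm_num))
    ((cB_bd qA00 jA00).mono (b := 2 ^ 141) (by norm_num))
    ((cA_bd qB00 jB00).mono (b := 2 ^ 141) (by norm_num))
    ((cB_bd qB00 jB00).mono (b := 2 ^ 141) (by norm_num))
    (hm_bd qA11 jA11) (hm_bd qB11 jB11)
  have hz := PDz_hev (psd_sound hR hB h) y
  rw [hev_VU, hev_E7, hev_E7, hev_E8] at hz
  simp only [hev_D0z, hev_PZ, hev_AZ, hev_BZ] at hz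
  rw [Vn_gen, Vn_gen, nr_split y]
  simp only [sub_re, sub_im, zero_re, zero_im, mul_zero, add_zero]
  push_cast at hz
  simp only [QZ] at hz ⊢
  linarith

end

end UUX
end Pool.Agent.Helper94.CXF.SD
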