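import Pool.Agent.Helper6.CXF.UU

/-!
FARL, row UU: THE THEOREM `uu_sound`.
-/

set_option autoImplicit false
set_option exponentiation.threshold 4000
noncomputable section
namespace Pool.Agent.Helper94.CXF.SD
open UUX

open Pool.Agent.Helper86.CX renaming Hm → Hm, ev → hev
open Pool.Agent.Helper94.CXF (M9)
open Pool.Agent.Helper94.CXF
open Complex ComplexConjugate

section
variable {KAz KBz HAz HBz : Hm ℤ} {T0 T1 : M9 ℝ} {s : ℝ} {u : ℂ}

theorem QT_self (K : Hm ℤ) (T : M9 ℝ) (y : Fin 3 → ℂ) :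
    (QT K T T y).re = 2 ^ 96 * hev (rH K) (ap1 T y) := by
  rw [QT, ← hev_hmQ, ← hev_P, ap1_sm, ev_smul, Complex.norm_real]
  norm_num

/-- the form of the image minus `P²` times the source form -/
def FX (KAz KBz HAz HBz : Hm ℤ) (T0 T1 : M9 ℝ) (s : ℝ) (u : ℂ) (x : Fin 3 → ℂ) : ℝ :=
  hev (rH KAz) (ap (T0, T1) (s * u) x) + s * hev (rH KBz) (ap (T0, T1) (s * u) x) -
    T0.a * T0.a * (hev (rH HAz) x + s * hev (rH HBz) x)

theorem pt_eq (T0 : M9 ℝ) : pt T0 = -(2 ^ 96 * (T0.a * T0.a)) := by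
  rw [pt]; ring

theorem hev_T (K : Hm ℤ) (e : ℂ) (x : Fin 3 → ℂ) :
    2 ^ 96 * hev (rH K) (ap (T0, T1) e x) = (QT K T0 T0 x).re + 2 * (e * QT K T0 T1 x).re +
      normSq e * (QT K T1 T1 x).re := by
  rw [← hev_sm, hev_ap]
  rfl

/-- decomposition -/
theorem FX_eq {x0 : ℝ} (hu : Cv x0 s u) (x : Fin 3 → ℂ)
    (hc : (QT KAz T0 T0 x).re + pt T0 * hev (rH HAz) x =
      (QT KAz T0 T0 (bkv x)).re + pt T0 * hev (rH HAz) (bkv x)) :
    2 ^ 96 * FX KAz KBz HAz HBz T0 T1 s u x =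
      s * VRt KAz KBz HBz T0 T1 s u x + VBt KAz KBz HAz HBz T0 T1 s u (bkv x) := by
  have nse : normSq ((s : ℂ) * u) = s ^ 2 := by
    rw [normSq_mul, normSq_ofReal, hu.nm]; ring
  have a := hev_T (T0 := T0) (T1 := T1) KAz (s * u) x
  have b := hev_T (T0 := T0) (T1 := T1) KBz (s * u) x
  rw [nse] at a b
  have e1 : ∀ q : ℂ, ((s * u) * q).re = s * (u * q).re := by
    intro q; rw [mul_assoc, re_ofReal_mul]
  have e2 : ∀ q : ℂ, ((s * (s * u)) * q).re = s * (s * (u * q).re) := by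
    intro q; rw [mul_assoc, re_ofReal_mul, e1]
  have e3 : ∀ q r : ℂ, (u * (q - r)).re = (u * q).re - (u * r).re := by
    intro q r; rw [mul_sub, sub_re]
  rw [e1] at a b
  simp only [FX, VRt, VBt, VR, VB, Vv, e1, e2, e3, mul_zero, zero_re]
  rw [pt_eq] at hc ⊢
  linear_combination a + s * b + hc

end

theorem const_row {KAz HAz : Hm ℤ} (ka : KAz.a = 0) (kf : KAz.f = 0) (kg : KAz.g = 0)
    (ha : HAz.a = 0) (hf : HAz.f = 0) (hg : HAz.g = 0) (hd : KAz.d = HAz.d)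
    (he : KAz.e = HAz.e) (k h g : ℝ) (x : Fin 3 → ℂ) :
    (QT KAz (TUm k h g).1 (TUm k h g).1 x).re + pt (TUm k h g).1 * hev (rH HAz) x =
      (QT KAz (TUm k h g).1 (TUm k h g).1 (bkv x)).re +
        pt (TUm k h g).1 * hev (rH HAz) (bkv x) := by
  rw [QT_self, QT_self, pt_eq]
  simp only [hev, ap1_0, ap1_1, ap1_2, bkv_0, bkv_1, bkv_2, rH, GR.mpH, cI_apply, ka, kf, kg, ha,
    hf, hg, hd, he, TUm]
  simp [normSq_apply]
  ring

/-- THE THEOREM for one chord -/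
theorem uu_chord {x0 : ℝ} {KAz KBz HAz HBz : Hm ℤ} (ka : KAz.a = 0) (kf : KAz.f = 0)
    (kg : KAz.g = 0) (ha : HAz.a = 0) (hf : HAz.f = 0) (hg : HAz.g = 0) (hd : KAz.d = HAz.d)
    (he : KAz.e = HAz.e) (kb : KBz.b = 0) (kc : KBz.c = 0) (kh : KBz.h = 0) (ki : KBz.i = 0)
    {k h g : ℝ} (hk : 0 < k) (hh : 0 < h) (hg0 : 0 < g) (hneg : NegS (rH KAz)) {s : ℝ} {u : ℂ}
    (hu : Cv x0 s u) {w : ℝ} (w0 : 0 < w) (ws : 2048 * s ≤ w) {x : Fin 3 → ℂ} (hx : x 0 ≠ 0)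
    (H : w * (76 * 2 ^ 90 * nr x) ≤
        w * VRt KAz KBz HBz (TUm k h g).1 (TUm k h g).2 s u x +
          2048 * VBt KAz KBz HAz HBz (TUm k h g).1 (TUm k h g).2 s u (bkv x) ∧
      76 * 2 ^ 90 * nr (bkv x) ≤
        VBt KAz KBz HAz HBz (TUm k h g).1 (TUm k h g).2 s u (bkv x))
    (hH : 0 ≤ hev (rH HAz) x + s * hev (rH HBz) x) :
    0 ≤ hev (rH KAz) (ap (TUm k h g) (s * u) x) +
        s * hev (rH KBz) (ap (TUm k h g) (s * u) x) ∧ ap (TUm k h g) (s * u) x 0 ≠ 0 := by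
  obtain ⟨H1, H2⟩ := H
  have hc := const_row ka kf kg ha hf hg hd he k h g x
  have E := FX_eq (KBz := KBz) (HBz := HBz) (T1 := (TUm k h g).2) hu x hc
  generalize hR : VRt KAz KBz HBz (TUm k h g).1 (TUm k h g).2 s u x = R at H1 E
  generalize hB : VBt KAz KBz HAz HBz (TUm k h g).1 (TUm k h g).2 s u (bkv x) = B at H1 H2 E
  have nx : 0 < nr x := nr_pos (fun h0 => hx (by rw [h0]; rfl))
  have nb := nr_nonneg (bkv x)
  have B0 : 0 ≤ B := le_trans (by positivity) H2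
  have s0 := hu.s0
  set y := ap (TUm k h g) (s * u) x with hy
  have FXe : FX KAz KBz HAz HBz (TUm k h g).1 (TUm k h g).2 s u x =
      hev (rH KAz) y + s * hev (rH KBz) y -
        (TUm k h g).1.a * (TUm k h g).1.a * (hev (rH HAz) x + s * hev (rH HBz) x) := rfl
  have PP : 0 ≤ (TUm k h g).1.a * (TUm k h g).1.a * (hev (rH HAz) x + s * hev (rH HBz) x) :=
    mul_nonneg (mul_self_nonneg _) hH
  -- a vector with first coordinate zero
  have neg : y 0 = 0 → hev (rH KAz) y + s * hev (rH KBz) y = hev (rH KAz) y := by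
    intro h0
    have : hev (rH KBz) y = 0 := by
      simp only [hev, rH, GR.mpH, cI_apply, kb, kc, kh, ki, h0]
      simp
    rw [this, mul_zero, add_zero]
  rcases s0.lt_or_eq with sp | sp
  · have key : 0 < w * (2 ^ 96 * FX KAz KBz HAz HBz (TUm k h g).1 (TUm k h g).2 s u x) := by
      rw [E]
      have e : w * (s * R + B) = s * (w * R + 2048 * B) + (w - 2048 * s) * B := by ring
      rw [e]
      have a1 : 0 < s * (w * R + 2048 * B) := mul_pos sp (lt_of_lt_of_le (by positivity) H1)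
      have a2 : 0 ≤ (w - 2048 * s) * B := mul_nonneg (by linarith) B0
      linarith
    have key2 : 0 < FX KAz KBz HAz HBz (TUm k h g).1 (TUm k h g).2 s u x := by
      have := (pos_iff_pos_of_mul_pos key).1 w0
      have h96 : (0 : ℝ) < 2 ^ 96 := by positivity
      exact (pos_iff_pos_of_mul_pos this).1 h96
    rw [FXe] at key2
    refine ⟨by linarith, fun h0 => ?_⟩
    have h1 := neg h0
    have h2 : 0 < hev (rH KAz) y := by linarith
    by_cases hz : y = 0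
    · rw [hz, ev_zero] at h2
      exact lt_irrefl _ h2
    · exact absurd (hneg y h0 hz) (not_lt.2 h2.le)
  · have hs : s = 0 := sp.symm
    subst hs
    have key : 0 ≤ FX KAz KBz HAz HBz (TUm k h g).1 (TUm k h g).2 0 u x := by
      have : (0 : ℝ) ≤ 2 ^ 96 * FX KAz KBz HAz HBz (TUm k h g).1 (TUm k h g).2 0 u x := by
        rw [E, zero_mul, zero_add]; exact B0
      have h96 : (0 : ℝ) < 2 ^ 96 := by positivity
      exact nonneg_of_mul_nonneg_right this h96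
    rw [FXe] at key
    refine ⟨by linarith, fun h0 => ?_⟩
    have h1 := neg h0
    have h2 : 0 ≤ hev (rH KAz) y := by linarith
    by_cases hz : y = 0
    · have y1 : y 1 = 0 := by rw [hz]; rfl
      have P0 : (k : ℂ) * (h * g) ≠ 0 := by
        have : k * (h * g) ≠ 0 := by positivity
        exact_mod_cast this
      have e1 : y 1 = (k : ℂ) * (h * g) * x 1 := by
        rw [hy, ap_eq]
        simp only [Pi.add_apply, Pi.smul_apply, smul_eq_mul, ap1_1, TUm]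
        push_cast
        ring
      have e0 : y 0 = (k : ℂ) * (h * g) * x 0 + (k : ℂ) * (h * g) * (k * k - 1) * x 1 := by
        rw [hy, ap_eq]
        simp only [Pi.add_apply, Pi.smul_apply, smul_eq_mul, ap1_0, TUm]
        push_cast
        ring
      rw [y1] at e1
      have x1 : x 1 = 0 := (mul_eq_zero.1 e1.symm).resolve_left P0
      rw [h0, x1, mul_zero, add_zero] at e0
      exact hx ((mul_eq_zero.1 e0.symm).resolve_left P0)
    · exact absurd (hneg y h0 hz) (not_lt.2 h2)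

/-- ROW UU -/
theorem uu_sound {x0 : ℝ} {P : KN.Pc} (hP : PcOk x0 P) {KA KB HA HB : Hm ℕ}
    {KAz KBz HAz HBz : Hm ℤ} (rKA : RH KA KAz) (rKB : RH KB KBz) (rHA : RH HA HAz)
    (rHB : RH HB HBz) (bKA : BH (2 ^ 27) KAz) (bKB : BH (2 ^ 27) KBz) (bHA : BH (2 ^ 27) HAz)
    (bHB : BH (2 ^ 27) HBz) (ka : KAz.a = 0) (kf : KAz.f = 0) (kg : KAz.g = 0)
    (ha : HAz.a = 0) (hf : HAz.f = 0) (hg : HAz.g = 0) (hd : KAz.d = HAz.d)
    (he : KAz.e = HAz.e) (kb : KBz.b = 0) (kc : KBz.c = 0) (kh : KBz.h = 0) (ki : KBz.i = 0)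
    {k h g : ℝ} (hk : 0 < k) (hh : 0 < h) (hg0 : 0 < g) {N : M9 ℕ × M9 ℕ} {Z0 Z1 : M9 ℤ}
    (o0 : OkT (TUm k h g).1 N.1 Z0) (o1 : OkT (TUm k h g).2 N.2 Z1) (hneg : NegS (rH KAz))
    {t : KN.LU} (H : KN.uu P.ns P.x (KN.kst P) (KN.ken P) t KA KB HA HB N = true) {s : ℝ} {u : ℂ}
    (hu : InP x0 P s u) :
    ∀ x, x 0 ≠ 0 → 0 ≤ hev (rH HAz) x + s * hev (rH HBz) x →
      0 ≤ hev (rH KAz) (ap (TUm k h g) (s * u) x) +
        s * hev (rH KBz) (ap (TUm k h g) (s * u) x) ∧ ap (TUm k h g) (s * u) x 0 ≠ 0 := by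
  unfold KN.uu KN.uu2 at H
  simp only [andB_iff] at H
  obtain ⟨tnu, tne, tm, tbe, tbg, tb0, tb1, q1, q2, q3, q4, q5, q6, q7, hc⟩ := H
  have tnu : t.nu ≤ 2 ^ 145 := Nat.le_of_ble_eq_true tnu
  have tne : t.ne ≤ 2 ^ 145 := Nat.le_of_ble_eq_true tne
  have tm : t.m ≤ 2 ^ 145 := Nat.le_of_ble_eq_true tm
  have tbe : t.be ≤ 2 ^ 145 := Nat.le_of_ble_eq_true tbe
  have tbg : t.bg ≤ 2 ^ 145 := Nat.le_of_ble_eq_true tbg
  have tb0 : t.b0 ≤ 2 ^ 145 := Nat.le_of_ble_eq_true tb0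
  have tb1 : t.b1 ≤ 2 ^ 145 := Nat.le_of_ble_eq_true tb1
  have D : UD KAz KBz HAz HBz (TUm k h g).1 (TUm k h g).2 N.1 N.2 Z0 Z1 :=
    ⟨bKA, bKB, bHA, bHB, o0, o1⟩
  refine chs_sound (x0 := x0) (Q := fun s => ∀ u, Cv x0 s u → ∀ x, x 0 ≠ 0 →
    0 ≤ hev (rH HAz) x + s * hev (rH HBz) x →
      0 ≤ hev (rH KAz) (ap (TUm k h g) (s * u) x) +
        s * hev (rH KBz) (ap (TUm k h g) (s * u) x) ∧ ap (TUm k h g) (s * u) x 0 ≠ 0)
    hP.ns ?_ ?_ t.c (KN.kst P) hP.st hc hP.lt s hu.s0 hu.s1 u hu.cv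
  · intro k0 k1 l hc
    unfold KN.c8 at hc
    simp only [andB_iff] at hc
    exact Nat.le_of_ble_eq_true hc.1
  · rintro k0 k1 l ⟨u0, h0⟩ ⟨u1, h1⟩ hc s s0 s1 u hu x hx hH
    have hi : k0.i + 1 ≤ k1.i := by
      unfold KN.c8 at hc
      simp only [andB_iff] at hc
      exact Nat.le_of_ble_eq_true hc.1
    have w0 : (0 : ℝ) < k1.i := by
      have : 0 < k1.i := by omega
      exact_mod_cast this
    have ws : 2048 * s ≤ (k1.i : ℝ) := by
      have := mul_le_mul_of_nonneg_left s1 (show (0 : ℝ) ≤ 2048 by norm_num)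
      linarith
    have key := c8_true D hu w0.le (c8_int rKA rKB rHA rHB D hP.hx hP.hx2 tnu tne tm tbe tbg tb0
      tb1 q1 q2 q3 q4 q5 q6 q7 h0 h1 hc hu s0 s1 x)
    exact uu_chord ka kf kg ha hf hg hd he kb kc kh ki hk hh hg0 hneg hu w0 ws hx key hH

end Pool.Agent.Helper94.CXF.SD
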