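import Pool.Agent.Helper94.CXF.S12
import Pool.Agent.Helper6.CXF.UUS

/-!
FARL: row UU as a statement about a piece.
-/

set_option autoImplicit false
set_option exponentiation.threshold 4000
noncomputable section
namespace Pool.Agent.Helper94.CXF.SD

open Pool.Agent.Helper86.CX renaming Hm → Hm, ev → hev
open Pool.Agent.Helper94.CXF (M9)
open Pool.Agent.Helper94.CXF

theorem uust {x0 : ℝ} {P : KN.Pc} (hP : PcOk x0 P) : UUst x0 P := by
  intro KA KB HA HB t k h g N Z0 Z1 hk hh hg a1 a2 b1 b2 hd he o0 o1 hn H s u hu x hx hx2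
  exact uu_sound hP (dec_rep KA) (dec_rep KB) (dec_rep HA) (dec_rep HB) (dec_bd KA) (dec_bd KB)
    (dec_bd HA) (dec_bd HB) a1.a a1.f a1.g a2.a a2.f a2.g hd he b1.b b1.c b1.h b1.i hk hh hg o0 o1
    hn H hu x hx hx2

end Pool.Agent.Helper94.CXF.SD
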